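import Pool.Agent.H72.SF.XT

/-!
# X1. Lifts of frames for the base morphism
-/

open Ordinal Cardinal Order Set
open scoped ZFSet

namespace SF.H91

open SF

/-- components of a known pair are known -/
private theorem x1_pair (hAP : T_AP) {B : V} [IsCBA B] {N' N : V} {b : El B} {σ : V → V → El B}
    (np : NP N' N) (hm : BMap N' N b σ) (hb : b ≠ ⊥) {z' y y2 : V}
    (h : σ z' (ZFSet.pair y y2) = b) :
    ∃ x x2, z' = ZFSet.pair x x2 ∧ σ x y = b ∧ σ x2 y2 = b := by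
  obtain ⟨-, h2, -⟩ := hAP B N' N b σ np hm hb
  obtain ⟨x, hx, x2, hx2, e, h3⟩ := h2 z' y y2 (by rw [h]; exact hb)
  rw [h] at h3
  refine ⟨x, x2, e, le_antisymm ?_ (h3.trans inf_le_left), le_antisymm ?_ (h3.trans inf_le_right)⟩
  · rw [← hm.tot x hx]
    exact le_iSup (fun y => σ x y) y
  · rw [← hm.tot x2 hx2]
    exact le_iSup (fun y => σ x2 y) y2

private theorem x1_mono {B C : V} [IsCBA B] [IsCBA C] (h : Mor B C) {x y : El B} (hxy : x ≤ y) :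
    h x ≤ h y := by
  have h1 : h.f (x ⊓ y) = h.f x ⊓ h.f y := h.inf x y
  rw [inf_eq_left.2 hxy] at h1
  exact inf_eq_left.1 h1.symm

theorem x1 (hXF : T_XF) (hAP : T_AP) (hAU : T_AU) : T_X1 := by
  intro C hG c0 hc0 s
  obtain ⟨p, hp⟩ := hG
  obtain ⟨F, s1, c', h1, h2, h3⟩ := hXF C p
    (ZFSet.pair s (ZFSet.pair c0.val (ZFSet.pair w1 C.B))) c0 hc0
  have hs1 : s1 ∈ F.N' := (F.map.dom s1 _ (by rw [h1]; exact F.ne)).1
  obtain ⟨c, σ', L⟩ := hp F s1 hs1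
  have hle : c ≤ C.g F.b := L.le
  have hc : c ≠ ⊥ := by
    intro h
    have h4 := L.proj ⊥ (by rw [h]; exact bot_le)
    exact F.ne (le_bot_iff.1 h4)
  have h5 : σ' s1 (ZFSet.pair s (ZFSet.pair c0.val (ZFSet.pair w1 C.B))) = c := by
    apply le_antisymm
    · rw [← L.map.tot s1 hs1]
      exact le_iSup (fun y => σ' s1 y) _
    · have h4 := L.keep (ZFSet.pair s (ZFSet.pair c0.val (ZFSet.pair w1 C.B)))
      rw [h1] at h4
      refine le_trans ?_ h4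
      exact le_inf le_rfl hle
  obtain ⟨x, x2, e, e1, e2⟩ := x1_pair hAP F.np L.map hc h5
  obtain ⟨x3, x4, e3, e4, e5⟩ := x1_pair hAP F.np L.map hc e2
  obtain ⟨x5, x6, e6, e7, e8⟩ := x1_pair hAP F.np L.map hc e5
  obtain ⟨y, y2, d, d1, d2⟩ := x1_pair hAP F.np F.map F.ne h1
  obtain ⟨y3, y4, d3, d4, d5⟩ := x1_pair hAP F.np F.map F.ne d2
  obtain ⟨y5, y6, d6, d7, d8⟩ := x1_pair hAP F.np F.map F.ne d5
  obtain ⟨f1, f2⟩ := ZFSet.pair_injective (e.symm.trans d)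
  obtain ⟨f3, f4⟩ := ZFSet.pair_injective (e3.symm.trans (f2.trans d3))
  obtain ⟨f5, f6⟩ := ZFSet.pair_injective (e6.symm.trans (f4.trans d6))
  have g1 : x5 = F.w := by
    rw [f5]
    exact (hAU BA0.B F.N' F.N F.b F.σ F.np F.map F.ne F.w w1 F.kw).2.2.1 y5 d7
  have g2 : x6 = F.C' := by
    rw [f6]
    exact (hAU BA0.B F.N' F.N F.b F.σ F.np F.map F.ne F.C' C.B F.kC).2.2.1 y6 d8
  have g3 : x3 = c' := by
    rw [f3]
    exact (hAU BA0.B F.N' F.N F.b F.σ F.np F.map F.ne c' c0.val h2).2.2.1 y3 d4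
  refine ⟨c, F.N', F.N, σ', F.w, F.C', F.G', x, hc, ?_, F.np, L.map, ?_, ?_, e1, F.gen, L.com, ?_⟩
  · have h6 := L.com c' h3 c0.val
    rw [← g3, e4] at h6
    have h7 : mkEl C.B c0.val = c0 := by
      unfold mkEl
      rw [dif_pos c0.mem]
    rw [h7] at h6
    exact h6
  · rw [← g1]; exact e7
  · rw [← g2]; exact e8
  · intro r hr
    exact hle.trans (x1_mono C.g (F.sc r hr))

end SF.H91
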