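import Pool.Agent.H72.SF.XT

/-!
# XK. The algebra of the club shooting
-/

open Ordinal Cardinal Order Set
open scoped ZFSet

namespace SF.H91

open SF

private theorem xk_exists {z : V} {C : BA} {r : Ordinal.{0} → El C.B} (hz : z ∈ QC C r) :
    ∃ (x : El C.B) (t : V), z = ZFSet.pair x.val t ∧ x ≠ ⊥ ∧ t ∈ Tcl ∧ x ≤ tau C r t := by
  unfold QC at hz
  obtain ⟨h1, h2, h4⟩ := ZFSet.mem_sep.1 hz
  obtain ⟨a, ha, t, ht, e⟩ := ZFSet.mem_prod.1 h1
  subst e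
  rw [fst_pair] at h2 h4
  rw [snd_pair] at h4
  refine ⟨⟨a, ha⟩, t, rfl, ?_, ht, El.le_iff.2 h4⟩
  intro h
  apply h2
  have h5 : (⟨a, ha⟩ : El C.B).val = (⊥ : El C.B).val := by rw [h]
  rw [El.bot_val] at h5
  exact h5

private theorem xk_mem {C : BA} {r : Ordinal.{0} → El C.B} (x : El C.B) (t : V) (hx : x ≠ ⊥)
    (ht : t ∈ Tcl) (h : x ≤ tau C r t) : ZFSet.pair x.val t ∈ QC C r := by
  unfold QC
  refine ZFSet.mem_sep.2 ⟨ZFSet.mem_prod.2 ⟨x.val, x.mem, t, ht, rfl⟩, ?_, ?_⟩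
  · rw [fst_pair]
    intro h0
    apply hx
    apply El.ext
    rw [h0, El.bot_val]
  · rw [fst_pair, snd_pair]; exact El.le_iff.1 h

private theorem xk_kmem (C : BA) (r : Ordinal.{0} → El C.B) (b : El C.B) :
    (QC C r).sep (fun z => fst z ⊆ b.val) ∈ RO (QC C r) leQC := by
  refine mem_RO.2 ⟨fun z hz => (ZFSet.mem_sep.1 hz).1, ?_, ?_⟩
  · intro z hz z' hz' hle
    exact ZFSet.mem_sep.2 ⟨hz', fun y hy => (ZFSet.mem_sep.1 hz).2 (hle.1 hy)⟩
  · intro z hz h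
    refine ZFSet.mem_sep.2 ⟨hz, ?_⟩
    obtain ⟨x, t, rfl, hx, ht, hxt⟩ := xk_exists hz
    rw [fst_pair]
    by_contra hcon
    have h1 : x ⊓ bᶜ ≠ ⊥ := by
      intro h0
      apply hcon
      exact El.le_iff.1 (disjoint_compl_right_iff.1 (disjoint_iff.2 h0))
    have h2 : ZFSet.pair (x ⊓ bᶜ).val t ∈ QC C r :=
      xk_mem (x ⊓ bᶜ) t h1 ht (inf_le_left.trans hxt)
    obtain ⟨s, hs, hle⟩ := h _ h2 ⟨by
      rw [fst_pair, fst_pair]; exact El.le_iff.1 inf_le_left, by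
      rw [snd_pair, snd_pair]; exact EEx.refl t⟩
    obtain ⟨hs1, hs2⟩ := ZFSet.mem_sep.1 hs
    obtain ⟨x', t', rfl, hx', -, -⟩ := xk_exists hs1
    have h3 := hle.1
    rw [fst_pair, fst_pair] at h3
    rw [fst_pair] at hs2
    have h4 : x' ≤ x ⊓ bᶜ := El.le_iff.2 h3
    have h5 : x' ≤ b := El.le_iff.2 hs2
    apply hx'
    rw [← le_bot_iff, ← inf_compl_self b]
    exact le_inf h5 (h4.trans inf_le_right)

private theorem xk_emem (C : BA) (r : Ordinal.{0} → El C.B) (t : V) :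
    (QC C r).sep (fun z => ∀ z' ∈ QC C r, leQC z' z → ∃ z'' ∈ QC C r,
      leQC z'' z' ∧ EEx (snd z'') t) ∈ RO (QC C r) leQC := by
  refine mem_RO.2 ⟨fun z hz => (ZFSet.mem_sep.1 hz).1, ?_, ?_⟩
  · intro z hz z' hz' hle
    refine ZFSet.mem_sep.2 ⟨hz', fun z2 hz2 hle2 => ?_⟩
    exact (ZFSet.mem_sep.1 hz).2 z2 hz2 (leQC_trans hle2 hle)
  · intro z hz h
    refine ZFSet.mem_sep.2 ⟨hz, fun z2 hz2 hle2 => ?_⟩
    obtain ⟨s, hs, hsle⟩ := h z2 hz2 hle2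
    obtain ⟨hs1, hs2⟩ := ZFSet.mem_sep.1 hs
    obtain ⟨z3, hz3, hle3, hE⟩ := hs2 s hs1 (leQC_refl s)
    exact ⟨z3, hz3, leQC_trans hle3 hsle, hE⟩

/-- the embedding of the algebra -/
private noncomputable def xkk (C : BA) (r : Ordinal.{0} → El C.B) (b : El C.B) : El (RO (QC C r) leQC) :=
  ⟨(QC C r).sep (fun z => fst z ⊆ b.val), xk_kmem C r b⟩

/-- the values of the closed sets -/
private noncomputable def xke (C : BA) (r : Ordinal.{0} → El C.B) (t : V) : El (RO (QC C r) leQC) :=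
  ⟨(QC C r).sep (fun z => ∀ z' ∈ QC C r, leQC z' z → ∃ z'' ∈ QC C r,
      leQC z'' z' ∧ EEx (snd z'') t), xk_emem C r t⟩

private theorem xkk_mem {C : BA} {r : Ordinal.{0} → El C.B} {b : El C.B} {z : V} :
    z ∈ (xkk C r b).val ↔ z ∈ QC C r ∧ fst z ⊆ b.val := by
  show z ∈ (QC C r).sep (fun z => fst z ⊆ b.val) ↔ _
  exact ZFSet.mem_sep

private theorem xke_mem {C : BA} {r : Ordinal.{0} → El C.B} {t z : V} :
    z ∈ (xke C r t).val ↔ z ∈ QC C r ∧ ∀ z' ∈ QC C r, leQC z' z → ∃ z'' ∈ QC C r,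
      leQC z'' z' ∧ EEx (snd z'') t := by
  show z ∈ (QC C r).sep (fun z => ∀ z' ∈ QC C r, leQC z' z → ∃ z'' ∈ QC C r,
      leQC z'' z' ∧ EEx (snd z'') t) ↔ _
  exact ZFSet.mem_sep

private theorem xk_mono {C : BA} {r : Ordinal.{0} → El C.B} {a b : El C.B} (h : a ≤ b) :
    xkk C r a ≤ xkk C r b := by
  rw [El.le_iff]
  intro z hz
  obtain ⟨h1, h2⟩ := xkk_mem.1 hz
  exact xkk_mem.2 ⟨h1, fun y hy => El.le_iff.1 h (h2 hy)⟩

private theorem xk_inf (C : BA) (r : Ordinal.{0} → El C.B) (a b : El C.B) :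
    xkk C r (a ⊓ b) = xkk C r a ⊓ xkk C r b := by
  apply El.ext
  rw [El.inf_val]
  ext z
  rw [ZFSet.mem_inter, xkk_mem, xkk_mem, xkk_mem, El.inf_val]
  constructor
  · rintro ⟨h1, h2⟩
    exact ⟨⟨h1, fun y hy => (ZFSet.mem_inter.1 (h2 hy)).1⟩,
      ⟨h1, fun y hy => (ZFSet.mem_inter.1 (h2 hy)).2⟩⟩
  · rintro ⟨⟨h1, h2⟩, -, h3⟩
    exact ⟨h1, fun y hy => ZFSet.mem_inter.2 ⟨h2 hy, h3 hy⟩⟩

private theorem xk_sup (hRS : T_RS) (C : BA) (r : Ordinal.{0} → El C.B) (S : Set (El C.B)) :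
    xkk C r (sSup S) = sSup (xkk C r '' S) := by
  have hrs := (hRS (QC C r) leQC (fun _ _ => leQC_refl _)
    fun _ _ _ _ _ _ h h' => leQC_trans h h').1
  apply le_antisymm
  · rw [sSup_image']
    refine (hrs (↥S) (fun s => xkk C r s.1) _).2 ?_
    intro z hz
    obtain ⟨h1, h2⟩ := xkk_mem.1 hz
    obtain ⟨x, t, rfl, hx, ht, hxt⟩ := xk_exists h1
    rw [fst_pair] at h2
    have h3 : x ≤ sSup S := El.le_iff.2 h2
    have h4 : ∃ s ∈ S, x ⊓ s ≠ ⊥ := by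
      by_contra hcon
      push Not at hcon
      apply hx
      have h5 : x ⊓ sSup S = ⊥ := by
        rw [inf_sSup_eq]
        simp only [iSup_eq_bot]
        exact hcon
      rw [inf_eq_left.2 h3] at h5
      exact h5
    obtain ⟨s, hs, hxs⟩ := h4
    refine ⟨ZFSet.pair (x ⊓ s).val t, xk_mem _ t hxs ht (inf_le_left.trans hxt), ⟨?_, ?_⟩,
      ⟨s, hs⟩, xkk_mem.2 ⟨xk_mem _ t hxs ht (inf_le_left.trans hxt), ?_⟩⟩
    · rw [fst_pair, fst_pair]; exact El.le_iff.1 inf_le_left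
    · rw [snd_pair, snd_pair]; exact EEx.refl t
    · rw [fst_pair]; exact El.le_iff.1 inf_le_right
  · refine sSup_le ?_
    rintro _ ⟨s, hs, rfl⟩
    exact xk_mono (le_sSup hs)

private theorem xk_top (hRS : T_RS) (C : BA) (r : Ordinal.{0} → El C.B) : xkk C r ⊤ = ⊤ := by
  have hrs := (hRS (QC C r) leQC (fun _ _ => leQC_refl _)
    fun _ _ _ _ _ _ h h' => leQC_trans h h').2.2.2.1
  apply El.ext
  rw [hrs]
  ext z
  rw [xkk_mem]
  refine ⟨fun h => h.1, fun h => ⟨h, ?_⟩⟩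
  obtain ⟨x, t, rfl, hx, ht, hxt⟩ := xk_exists h
  rw [fst_pair]
  exact El.le_iff.1 le_top

theorem xk (hRS : T_RS) (hX3 : T_X3) : T_XK := by
  intro C hG r
  have hrs := hRS (QC C r) leQC (fun _ _ => leQC_refl _)
    fun _ _ _ _ _ _ h h' => leQC_trans h h'
  obtain ⟨-, -, -, -, hne, hne2, -, -⟩ := hrs
  let kM : Mor C.B (RO (QC C r) leQC) := ⟨xkk C r, xk_inf C r, xk_sup hRS C r⟩
  let Z : BA := ⟨RO (QC C r) leQC, C.g.comp kM, by
    show xkk C r (C.g ⊤) = ⊤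
    rw [C.unit]
    exact xk_top hRS C r⟩
  let k : BMor C Z := ⟨kM, by
    intro x
    show xkk C r (C.g x) = xkk C r (C.g x) ⊓ xkk C r ⊤
    rw [xk_top hRS C r, inf_top_eq]⟩
  have kdef : ∀ b : El C.B, k b = xkk C r b := fun _ => rfl
  have hclz : ∀ (b : El C.B) (t : V), ZFSet.pair b.val t ∈ QC C r →
      (xkk C r b ⊓ xke C r t).val = cl (QC C r) leQC (ZFSet.pair b.val t) := by
    intro b t hbt
    rw [El.inf_val]
    ext z
    rw [ZFSet.mem_inter]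
    constructor
    · rintro ⟨h1, h2⟩
      obtain ⟨h3, h4⟩ := xkk_mem.1 h1
      obtain ⟨-, h5⟩ := xke_mem.1 h2
      unfold SF.cl
      refine ZFSet.mem_sep.2 ⟨h3, fun q hq hqz => ?_⟩
      obtain ⟨z'', h6, h7, h8⟩ := h5 q hq hqz
      refine ⟨z'', h6, h7, ?_, ?_⟩
      · rw [fst_pair]
        exact fun y hy => h4 (hqz.1 (h7.1 hy))
      · rw [snd_pair]; exact h8
    · intro hz
      unfold SF.cl at hz
      obtain ⟨h1, h2⟩ := ZFSet.mem_sep.1 hz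
      refine ⟨?_, xke_mem.2 ⟨h1, ?_⟩⟩
      · refine (mem_RO.1 (xkk C r b).mem).2.2 z h1 fun q hq hqz => ?_
        obtain ⟨s, h3, h4, h5⟩ := h2 q hq hqz
        refine ⟨s, xkk_mem.2 ⟨h3, ?_⟩, h4⟩
        have h6 := h5.1
        rw [fst_pair] at h6
        exact h6
      · intro q hq hqz
        obtain ⟨s, h3, h4, h5⟩ := h2 q hq hqz
        refine ⟨s, h3, h4, ?_⟩
        have h6 := h5.2
        rw [snd_pair] at h6
        exact h6
  refine ⟨Z, k, xke C r, ?_⟩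
  constructor
  · rfl
  · exact xk_top hRS C r
  · intro b; rfl
  · intro b hb
    by_contra hb0
    obtain ⟨δ, h1, h2, h3⟩ := hX3 C hG r b hb0 0 (by
      exact lt_of_lt_of_le Ordinal.omega0_pos (Ordinal.omega0_le_omega 1))
    have hT : ({δ.toZFSet} : V) ∈ Tcl := by
      have h6 : ({δ.toZFSet} : V) ⊆ w1 := by
        intro x hx
        rw [ZFSet.mem_singleton.1 hx]
        unfold w1
        exact Ordinal.toZFSet_mem_toZFSet_iff.2 h2
      unfold Tcl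
      refine ZFSet.mem_sep.2 ⟨ZFSet.mem_powerset.2 h6, h6, ?_, ?_⟩
      · exact ⟨δ.toZFSet, ZFSet.mem_singleton.2 rfl, fun x hx =>
          Or.inr (ZFSet.mem_singleton.1 hx)⟩
      · intro α hα hα0 h
        exfalso
        obtain ⟨β, hβ⟩ := (ZFSet.eq_empty_or_nonempty α).resolve_left hα0
        obtain ⟨γ, g1, g2, g3⟩ := h β hβ
        rw [ZFSet.mem_singleton.1 g1] at g3
        obtain ⟨γ', g4, g5, g6⟩ := h _ g3
        rw [ZFSet.mem_singleton.1 g4] at g5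
        exact ZFSet.mem_irrefl _ g5
    have h4 : b ⊓ gval C r δ ≤ tau C r {δ.toZFSet} := by
      unfold tau
      refine le_iInf fun δ' => ?_
      have h5 : δ'.1 = δ := Ordinal.toZFSet_injective (ZFSet.mem_singleton.1 δ'.2)
      rw [h5]
      exact inf_le_right
    have h5 : ZFSet.pair (b ⊓ gval C r δ).val {δ.toZFSet} ∈ (xkk C r b).val := by
      refine xkk_mem.2 ⟨xk_mem _ _ h3 hT h4, ?_⟩
      rw [fst_pair]
      exact El.le_iff.1 inf_le_left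
    exact (hne (xkk C r b)).2 ⟨_, h5⟩ hb
  · intro t; rfl
  · intro b t hbt
    refine ⟨hclz b t hbt, ?_⟩
    obtain ⟨x, t', e, hx, ht, hxt⟩ := xk_exists hbt
    obtain ⟨e1, e2⟩ := ZFSet.pair_injective e
    have e3 : b = x := El.ext e1
    subst e3
    subst e2
    show sInf {b' : El C.B | xkk C r b ⊓ xke C r t ≤ xkk C r b'} = b
    apply le_antisymm
    · exact sInf_le inf_le_left
    · refine le_sInf fun b' hb' => ?_
      by_contra hcon
      have h1 : b ⊓ b'ᶜ ≠ ⊥ := by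
        intro h0
        exact hcon (disjoint_compl_right_iff.1 (disjoint_iff.2 h0))
      have h2 : ZFSet.pair (b ⊓ b'ᶜ).val t ∈ QC C r :=
        xk_mem _ t h1 ht (inf_le_left.trans hxt)
      have h3 : leQC (ZFSet.pair (b ⊓ b'ᶜ).val t) (ZFSet.pair b.val t) := by
        refine ⟨?_, ?_⟩
        · rw [fst_pair, fst_pair]; exact El.le_iff.1 inf_le_left
        · rw [snd_pair, snd_pair]; exact EEx.refl t
      have h4 : ZFSet.pair (b ⊓ b'ᶜ).val t ∈ (xkk C r b ⊓ xke C r t).val := by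
        rw [hclz b t hbt]
        unfold SF.cl
        refine ZFSet.mem_sep.2 ⟨h2, fun q hq hqz => ⟨q, hq, leQC_refl q, leQC_trans hqz h3⟩⟩
      have h5 : xkk C r b ⊓ xke C r t ≤ xkk C r b' := hb'
      have h6 := El.le_iff.1 h5 h4
      obtain ⟨-, h7⟩ := xkk_mem.1 h6
      rw [fst_pair] at h7
      have h8 : b ⊓ b'ᶜ ≤ b' := El.le_iff.2 h7
      apply h1
      rw [← le_bot_iff, ← inf_compl_self b']
      exact le_inf h8 inf_le_right
  · intro t ht t' ht' hne0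
    obtain ⟨z, hz, hz'⟩ := (hne2 (xke C r t) (xke C r t')).1 hne0
    obtain ⟨h1, h2⟩ := xke_mem.1 hz
    obtain ⟨-, h3⟩ := xke_mem.1 hz'
    obtain ⟨z2, h4, h5, h6⟩ := h2 z h1 (leQC_refl z)
    obtain ⟨z3, h7, h8, h9⟩ := h3 z2 h4 h5
    have h10 : EEx (snd z3) t := h8.2.trans h6
    have key : ∀ t t' : V, (∀ x ∈ t, ∃ m ∈ t', x ∈ m ∨ x = m) →
        EEx (snd z3) t → EEx (snd z3) t' → EEx t' t := fun t t' h hE hE' =>
      ⟨fun x hx => hE'.2 x (hE.1 hx) (h x hx), fun x hx hm => hE.2 x (hE'.1 hx) hm⟩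
    unfold Tcl at ht ht'
    obtain ⟨-, a1, ⟨m, hm, hmm⟩, -⟩ := ZFSet.mem_sep.1 ht
    obtain ⟨-, b1, ⟨m', hm', hmm'⟩, -⟩ := ZFSet.mem_sep.1 ht'
    have hm1 := a1 hm
    have hm1' := b1 hm'
    unfold w1 at hm1 hm1'
    obtain ⟨α, -, rfl⟩ := Ordinal.mem_toZFSet_iff.1 hm1
    obtain ⟨α', -, rfl⟩ := Ordinal.mem_toZFSet_iff.1 hm1'
    rcases le_total α α' with hle | hle
    · refine Or.inr (key t t' (fun x hx => ⟨_, hm', ?_⟩) h10 h9)
      rcases lt_or_eq_of_le hle with hlt | heq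
      · rcases hmm x hx with h | h
        · exact Or.inl (Ordinal.toZFSet_monotone hle h)
        · rw [h]
          exact Or.inl (Ordinal.toZFSet_mem_toZFSet_iff.2 hlt)
      · rw [← heq]
        exact hmm x hx
    · refine Or.inl (key t' t (fun x hx => ⟨_, hm, ?_⟩) h9 h10)
      rcases lt_or_eq_of_le hle with hlt | heq
      · rcases hmm' x hx with h | h
        · exact Or.inl (Ordinal.toZFSet_monotone hle h)
        · rw [h]
          exact Or.inl (Ordinal.toZFSet_mem_toZFSet_iff.2 hlt)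
      · rw [← heq]
        exact hmm' x hx
  · intro t ht δ hδ
    show xke C r t ≤ xkk C r (gval C r δ)
    rw [El.le_iff]
    intro z hz
    obtain ⟨h1, h2⟩ := xke_mem.1 hz
    refine (mem_RO.1 (xkk C r (gval C r δ)).mem).2.2 z h1 fun q hq hqz => ?_
    obtain ⟨z2, h3, h4, h5⟩ := h2 q hq hqz
    refine ⟨z2, xkk_mem.2 ⟨h3, ?_⟩, h4⟩
    obtain ⟨y, T, rfl, hy, hT, hyT⟩ := xk_exists h3
    rw [snd_pair] at h5
    rw [fst_pair]
    apply El.le_iff.1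
    refine hyT.trans ?_
    unfold tau
    exact iInf_le (fun δ : {δ : Ordinal.{0} // δ.toZFSet ∈ T} => gval C r δ.1) ⟨δ, h5.1 hδ⟩

end SF.H91
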