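import Pool.Agent.H84.SF.Loc

/-!
# THEOREM S, chapter 11: the equation does not depend on the derivation
-/

set_option autoImplicit false

namespace Pool.Agent.H91.SF

open MvPolynomial SC
open Pool.Agent.H27.LV (ge deg poleOrder canDeg)
open Pool.Agent.H92.OD (HS cf sg uu Lat geO IsO DF DD)
open Pool.Agent.H84.SM (y1 y2 Near)
open Pool.Agent.H84.SF

/-- EQC -/
theorem pf_EQC : T_EQC := by
  intro k O K _ _ _ _ _ X G A b x D c h
  unfold EqK at h ⊢
  rw [Fin.sum_univ_four] at h ⊢
  simp only [Derivation.smul_apply, smul_eq_mul, Derivation.leibniz] at h ⊢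
  simp only [Fin.val_zero, Fin.val_one, Fin.val_two, Fin.isValue, pow_zero, pow_one,
    show ((3 : Fin 4) : ℕ) = 3 from rfl, Nat.sub_self, Nat.sub_zero] at h ⊢
  norm_num at h ⊢
  linear_combination c ^ 3 * h

end Pool.Agent.H91.SF
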